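import Pool.Agent.Y920.ETC.Stm

/-!
Project ET (helper920), job ET-INERT: nontrivial inertia for infinite Galois extensions.
-/

set_option autoImplicit false
set_option linter.unusedVariables false
set_option linter.style.haveILetI false

namespace Pool.Agent.Y664.ET

open Pool.Agent.Y920.ETC

open scoped Pointwise

variable {F K : Type} [Field F] [Field K] [Algebra F K]

/-- The action of a group of automorphisms on an invariant valuation ring. -/
@[reducible] def act (O : ValuationSubring K) (hO : ∀ (σ : K ≃ₐ[F] K) (x : K), σ x ∈ O ↔ x ∈ O)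
    (G : Subgroup (K ≃ₐ[F] K)) : MulSemiringAction G O where
  smul g x := ⟨g.1 x.1, (hO g.1 x.1).2 x.2⟩
  one_smul x := rfl
  mul_smul g h x := rfl
  smul_zero g := Subtype.ext (map_zero g.1)
  smul_add g x z := Subtype.ext (map_add g.1 _ _)
  smul_one g := Subtype.ext (map_one g.1)
  smul_mul g x z := Subtype.ext (map_mul g.1 _ _)

/-- An automorphism as an automorphism of the valuation ring. -/
def autO (O : ValuationSubring K) (hO : ∀ (σ : K ≃ₐ[F] K) (x : K), σ x ∈ O ↔ x ∈ O)
    (s : K ≃ₐ[F] K) : O ≃+* O where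
  toFun x := ⟨s x.1, (hO s x.1).2 x.2⟩
  invFun x := ⟨s.symm x.1, (hO s.symm x.1).2 x.2⟩
  left_inv x := Subtype.ext (s.symm_apply_apply _)
  right_inv x := Subtype.ext (s.apply_symm_apply _)
  map_mul' x z := Subtype.ext (map_mul s _ _)
  map_add' x z := Subtype.ext (map_add s _ _)

theorem lt_one_iff (O : ValuationSubring K) (x : K) :
    O.valuation x < 1 ↔ x = 0 ∨ x⁻¹ ∉ O := by
  rw [← ValuationSubring.mem_nonunits_iff, ValuationSubring.mem_nonunits_iff_or]

theorem val_lt (O : ValuationSubring K) (hO : ∀ (σ : K ≃ₐ[F] K) (x : K), σ x ∈ O ↔ x ∈ O)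
    (σ : K ≃ₐ[F] K) (x : K) : O.valuation (σ x) < 1 ↔ O.valuation x < 1 := by
  rw [lt_one_iff, lt_one_iff, ← map_inv₀, hO, map_eq_zero]

/-- The elements fixed by the stabilizer of a square root. -/
theorem fixed_form [IsGalois F K] {c : F} {y : K} (h2 : (2 : F) ≠ 0) (hc : c ≠ 0)
    (hy : y ^ 2 = algebraMap F K c) {s : K ≃ₐ[F] K} (hs : s y = -y) {a : K}
    (ha : ∀ σ : K ≃ₐ[F] K, σ y = y → σ a = a) :
    ∃ f g : F, a = algebraMap F K f + algebraMap F K g * y ∧
      s a = algebraMap F K f - algebraMap F K g * y := by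
  have hpm : ∀ σ : K ≃ₐ[F] K, σ y = y ∨ σ y = -y := by
    intro σ
    have h1 : (σ y) ^ 2 = y ^ 2 := by
      rw [← map_pow, hy, AlgEquiv.commutes]
    exact sq_eq_sq_iff_eq_or_eq_neg.1 h1
  have hsa : ∀ σ : K ≃ₐ[F] K, σ y = -y → σ a = s a := by
    intro σ hσ
    have h1 : (s⁻¹ * σ) a = a := by
      apply ha
      rw [AlgEquiv.mul_apply, hσ]
      have : s⁻¹ (s y) = y := s.symm_apply_apply y
      rw [hs] at this
      exact this
    rw [AlgEquiv.mul_apply] at h1
    have h3 : s (s⁻¹ (σ a)) = σ a := s.apply_symm_apply _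
    rw [← h3, h1]
  have hsa' : ∀ σ : K ≃ₐ[F] K, σ y = y → σ (s a) = s a := by
    intro σ hσ
    have := hsa (σ * s) (by rw [AlgEquiv.mul_apply, hs, map_neg, hσ])
    rwa [AlgEquiv.mul_apply] at this
  have hsa'' : ∀ σ : K ≃ₐ[F] K, σ y = -y → σ (s a) = a := by
    intro σ hσ
    have := ha (σ * s) (by rw [AlgEquiv.mul_apply, hs, map_neg, hσ, neg_neg])
    rwa [AlgEquiv.mul_apply] at this
  obtain ⟨f1, hf1⟩ := (InfiniteGalois.mem_range_algebraMap_iff_fixed (k := F) (a + s a)).2 (by
    intro σ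
    rw [map_add]
    rcases hpm σ with h | h
    · rw [ha σ h, hsa' σ h]
    · rw [hsa σ h, hsa'' σ h, add_comm])
  obtain ⟨g1, hg1⟩ := (InfiniteGalois.mem_range_algebraMap_iff_fixed (k := F)
    ((a - s a) * y)).2 (by
    intro σ
    rw [map_mul, map_sub]
    rcases hpm σ with h | h
    · rw [ha σ h, hsa' σ h, h]
    · rw [hsa σ h, hsa'' σ h, h]
      ring)
  have h2' : (2 : K) ≠ 0 := by
    rw [← map_ofNat (algebraMap F K) 2]
    exact (map_ne_zero _).2 h2
  have hc' : algebraMap F K c ≠ 0 := (map_ne_zero _).2 hc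
  have hy0 : y ≠ 0 := by
    rintro rfl
    apply hc'
    rw [← hy]
    ring
  have e1 : algebraMap F K (f1 / 2) = (a + s a) / 2 := by
    rw [map_div₀, hf1, map_ofNat (algebraMap F K) 2]
  have e2 : algebraMap F K (g1 / (2 * c)) * y = (a - s a) / 2 := by
    rw [map_div₀, map_mul, hg1, ← hy, map_ofNat (algebraMap F K) 2]
    field_simp
  refine ⟨f1 / 2, g1 / (2 * c), ?_, ?_⟩
  · rw [e1, e2]
    field_simp
    ring
  · rw [e1, e2]
    field_simp
    ring

/-- The automorphism is trivial modulo the maximal ideal on the fixed elements. -/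
theorem close [IsGalois F K] (O : ValuationSubring K) {c : F} {y : K} (h2 : (2 : F) ≠ 0)
    (hc : c ≠ 0) (hy : y ^ 2 = algebraMap F K c)
    (hnu : ∀ f : F, f ≠ 0 → algebraMap F K (c * f ^ 2) ∈ O → algebraMap F K (c * f ^ 2)⁻¹ ∉ O)
    {s : K ≃ₐ[F] K} (hs : s y = -y) {a : K}
    (ha : ∀ σ : K ≃ₐ[F] K, σ y = y → σ a = a) (haO : a ∈ O) : O.valuation (s a - a) < 1 := by
  obtain ⟨f, g, h1, h3⟩ := fixed_form h2 hc hy hs ha
  have hv2 : O.valuation 2 ≤ 1 := (O.valuation_le_one_iff 2).2 (by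
    have := O.add_mem _ _ O.one_mem O.one_mem
    rwa [one_add_one_eq_two] at this)
  have hne : ∀ f : F, f ≠ 0 → O.valuation (algebraMap F K f * y) ≠ 1 := by
    intro f hf h
    have h4 : O.valuation (algebraMap F K (c * f ^ 2)) = 1 := by
      have h6 : algebraMap F K (c * f ^ 2) = (algebraMap F K f * y) ^ 2 := by
        rw [mul_pow, hy, map_mul, map_pow]
        ring
      rw [h6, map_pow, h, one_pow]
    refine hnu f hf ((O.valuation_le_one_iff _).1 h4.le) ?_
    rw [map_inv₀]
    apply (O.valuation_le_one_iff _).1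
    rw [map_inv₀, h4, inv_one]
  have hlt : O.valuation (algebraMap F K g * y) < 1 := by
    by_cases hg : g = 0
    · rw [hg, map_zero, zero_mul, map_zero]
      exact zero_lt_one
    refine lt_of_le_of_ne ?_ (hne g hg)
    have ha1 : O.valuation a ≤ 1 := (O.valuation_le_one_iff a).2 haO
    by_cases hf : f = 0
    · rw [hf, map_zero, zero_add] at h1
      rwa [← h1]
    have hf' : O.valuation (algebraMap F K f) ≠ 0 := by
      rw [Ne, map_eq_zero, map_eq_zero]
      exact hf
    have hne' : O.valuation (algebraMap F K g * y) ≠ O.valuation (algebraMap F K f) := by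
      intro h
      apply hne (g / f) (div_ne_zero hg hf)
      rw [map_div₀, div_mul_eq_mul_div, map_div₀, h, div_self hf']
    rw [h1] at ha1
    rcases lt_or_gt_of_ne hne' with h | h
    · rw [Valuation.map_add_eq_of_lt_left _ h] at ha1
      exact h.le.trans ha1
    · rw [Valuation.map_add_eq_of_lt_right _ h] at ha1
      exact ha1
  have h5 : s a - a = -(2 * (algebraMap F K g * y)) := by
    rw [h3]
    conv_lhs => rw [h1]
    ring
  rw [h5, Valuation.map_neg, map_mul]
  calc O.valuation 2 * O.valuation (algebraMap F K g * y)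
      ≤ 1 * O.valuation (algebraMap F K g * y) := mul_le_mul_left hv2 _
    _ < 1 := by rwa [one_mul]

theorem t_INERT : S_INERT := by
  intro F K _ _ _ _ O hO c y h2 hc hy hnu
  classical
  have h2' : (2 : K) ≠ 0 := by
    rw [← map_ofNat (algebraMap F K) 2]
    exact (map_ne_zero _).2 h2
  have hc' : algebraMap F K c ≠ 0 := (map_ne_zero _).2 hc
  have hy0 : y ≠ 0 := by
    rintro rfl
    apply hc'
    rw [← hy]
    ring
  -- an automorphism which moves `y`
  obtain ⟨s, hs⟩ : ∃ s : K ≃ₐ[F] K, s y = -y := by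
    by_contra hcon
    push Not at hcon
    obtain ⟨f, hf⟩ := (InfiniteGalois.mem_range_algebraMap_iff_fixed (k := F) y).2 (by
      intro σ
      have h1 : (σ y) ^ 2 = y ^ 2 := by
        rw [← map_pow, hy, AlgEquiv.commutes]
      exact (sq_eq_sq_iff_eq_or_eq_neg.1 h1).resolve_right (hcon σ))
    have hf0 : f ≠ 0 := by
      rintro rfl
      rw [map_zero] at hf
      exact hy0 hf.symm
    have h3 : c * (f⁻¹) ^ 2 = 1 := by
      apply (algebraMap F K).injective
      rw [map_mul, ← hy, ← hf, ← map_pow, ← map_mul, inv_pow, mul_inv_cancel₀ (pow_ne_zero 2 hf0)]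
    have h4 := hnu f⁻¹ (inv_ne_zero hf0)
    rw [h3, inv_one, map_one] at h4
    exact h4 O.one_mem O.one_mem
  let Gy : Subgroup (K ≃ₐ[F] K) := MulAction.stabilizer (K ≃ₐ[F] K) y
  letI : MulSemiringAction Gy O := act O hO Gy
  have hsm : ∀ (g : Gy) (x : O), ((g • x : O) : K) = g.1 x.1 := fun g x => rfl
  have hopen : IsOpen (Gy : Set (K ≃ₐ[F] K)) := stabilizer_isOpen_of_isIntegral y
  haveI : CompactSpace Gy := isCompact_iff_compactSpace.1 (Subgroup.isClosed_of_isOpen Gy hopen).isCompact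
  letI : TopologicalSpace O := ⊥
  haveI : DiscreteTopology O := ⟨rfl⟩
  haveI : ContinuousSMul Gy O := by
    rw [continuousSMul_iff_stabilizer_isOpen]
    intro x
    have h1 : IsOpen (MulAction.stabilizer (K ≃ₐ[F] K) (x : K) : Set (K ≃ₐ[F] K)) :=
      stabilizer_isOpen_of_isIntegral (x : K)
    have h3 := h1.preimage (continuous_subtype_val (p := fun g => g ∈ Gy))
    convert h3 using 1
    ext g
    simp only [SetLike.mem_coe, MulAction.mem_stabilizer_iff, Set.mem_preimage]
    rw [Subtype.ext_iff]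
    rfl
  let A := FixedPoints.subring O Gy
  haveI : Algebra.IsInvariant A O Gy := ⟨fun b hb => ⟨⟨b, hb⟩, rfl⟩⟩
  let Q : Ideal O := IsLocalRing.maximalIdeal O
  let P : Ideal A := Q.under A
  have hsQ : ∀ (σ : K ≃ₐ[F] K) (x : O), autO O hO σ x ∈ Q ↔ x ∈ Q := by
    intro σ x
    rw [ValuationSubring.valuation_lt_one_iff, ValuationSubring.valuation_lt_one_iff]
    exact val_lt O hO σ x.1
  have hmap : Q = Q.map (autO O hO s : O →+* O) := by
    ext x
    constructor
    · intro hx
      have : x = autO O hO s (autO O hO s⁻¹ x) :=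
        Subtype.ext (s.apply_symm_apply x.1).symm
      rw [this]
      exact Ideal.mem_map_of_mem _ ((hsQ _ _).2 hx)
    · intro hx
      have : Q.map (autO O hO s : O →+* O) ≤ Q := by
        rw [Ideal.map_le_iff_le_comap]
        intro z hz
        exact (hsQ s z).2 hz
      exact this hx
  let sb : (O ⧸ Q) ≃ₐ[A ⧸ P] (O ⧸ Q) := AlgEquiv.ofRingEquiv (f := Ideal.quotientEquiv Q Q
    (autO O hO s) hmap) (by
      intro r
      obtain ⟨a, rfl⟩ := Ideal.Quotient.mk_surjective r
      show Ideal.Quotient.mk Q (autO O hO s a.1) = Ideal.Quotient.mk Q a.1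
      rw [Ideal.Quotient.eq, ValuationSubring.valuation_lt_one_iff]
      refine close O h2 hc hy hnu hs (a := (a.1 : K)) ?_ a.1.2
      intro σ hσ
      have := a.2 ⟨σ, hσ⟩
      exact congrArg Subtype.val this)
  obtain ⟨τ, hτ⟩ := Ideal.Quotient.stabilizerHom_surjective_of_profinite (G := Gy) P Q sb
  have hτb : ∀ b : O, O.valuation (τ.1.1 b.1 - s b.1) < 1 := by
    intro b
    have h1 := DFunLike.congr_fun hτ (Ideal.Quotient.mk Q b)
    have h3 : Ideal.Quotient.mk Q (τ.1 • b) = Ideal.Quotient.mk Q (autO O hO s b) := h1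
    rw [Ideal.Quotient.eq, ValuationSubring.valuation_lt_one_iff] at h3
    exact h3
  refine ⟨τ.1.1⁻¹ * s, ?_, ?_⟩
  · intro h
    have h1 : (τ.1.1⁻¹ * s) y = y := by rw [h]; rfl
    rw [AlgEquiv.mul_apply, hs, map_neg] at h1
    have h3 : τ.1.1⁻¹ y = y := (inv_mem τ.1.2 : τ.1.1⁻¹ ∈ Gy)
    rw [h3] at h1
    have h4 : (2 : K) * y = 0 := by
      have : y + y = 0 := by nth_rewrite 1 [← h1]; ring
      rw [two_mul, this]
    rcases mul_eq_zero.1 h4 with h5 | h5
    · exact h2' h5
    · exact hy0 h5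
  · intro x hx
    have h1 := hτb ⟨x, hx⟩
    rw [← val_lt O hO τ.1.1]
    have h3 : τ.1.1 ((τ.1.1⁻¹ * s) x - x) = -(τ.1.1 x - s x) := by
      rw [map_sub, AlgEquiv.mul_apply]
      have : τ.1.1 (τ.1.1⁻¹ (s x)) = s x := τ.1.1.apply_symm_apply _
      rw [this]
      ring
    rw [h3, Valuation.map_neg]
    exact h1

end Pool.Agent.Y664.ET
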